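import Pool.Agent.Work.MP_73176e_al.GrpPart
import Pool.Agent.Work.MP_73176e_al.RingPart
import Pool.Agent.Work.MP_73176e_al.BasePart
import Pool.Agent.Work.MP_73176e_al.StepPart

set_option autoImplicit false

namespace Pool.Agent.Results.MP_73176e_al.SimpleBinaryFinite

private lemma card_two_of_finite (G : Type) [Group G] [Finite G]
    (hp : ∀ g : G, ∃ n : ℕ, g ^ 2 ^ n = 1) (hs : IsSimpleGroup G) : Nat.card G = 2 := by
  have hP : IsPGroup 2 G := hp
  have : Fact (Nat.Prime 2) := ⟨Nat.prime_two⟩
  have : Nontrivial (Subgroup.center G) := hP.center_nontrivial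
  have hc : Subgroup.center G = ⊤ := by
    rcases hs.eq_bot_or_eq_top_of_normal (Subgroup.center G) inferInstance with h | h
    · exact absurd h ((Subgroup.nontrivial_iff_ne_bot _).mp inferInstance)
    · exact h
  let _ : CommGroup G := Group.commGroupOfCenterEqTop hc
  have : IsSimpleGroup G := hs
  have hpr : (Nat.card G).Prime := IsSimpleGroup.prime_card
  obtain ⟨n, hn⟩ := hP.exists_card_eq
  rw [hn] at hpr ⊢
  have h1 : n = 1 := by
    by_contra h
    exact Nat.Prime.not_prime_pow' (x := 2) (n := n) h hpr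
  rw [h1, pow_one]

private lemma neg_form :
    ¬ (∀ (G : Type) [Group G], IsPGroup 2 G →
      (∀ a b : G, (Subgroup.closure ({a, b} : Set G) : Set G).Finite) →
      2 < ENat.card G →
      ∃ N : Subgroup G, N.Normal ∧ N ≠ ⊥ ∧ N ≠ ⊤) := by
  have h2 : (2 : RatFunc (ZMod 2)) = 0 := by
    have h : algebraMap (ZMod 2) (RatFunc (ZMod 2)) 2 = 2 := map_ofNat _ 2
    have h0 : (2 : ZMod 2) = 0 := by decide
    rw [← h, h0, map_zero]
  have : Infinite (RatFunc (ZMod 2)) :=
    Infinite.of_injective (algebraMap (Polynomial (ZMod 2)) (RatFunc (ZMod 2)))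
      (RatFunc.algebraMap_injective _)
  exact Pool.Agent.BinFin.grp_part (Pool.Agent.BinFin.ring_part (RatFunc (ZMod 2)) h2 4000
    (Pool.Agent.BinFin.exists_good (Pool.Agent.BinFin.base_part _ _)))

/-- There is an infinite simple group in which every element has order a power of `2` and every
two elements generate a finite subgroup. -/
theorem result : ∃ (G : Type) (_ : Group G), Infinite G ∧ IsSimpleGroup G ∧
    (∀ g : G, ∃ n : ℕ, g ^ 2 ^ n = 1) ∧
    ∀ x y : G, Finite (Subgroup.closure ({x, y} : Set G)) := by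
  have h := neg_form
  push Not at h
  obtain ⟨G, hG, hP, hbf, hcard, hN⟩ := h
  have hP' : ∀ g : G, ∃ n : ℕ, g ^ 2 ^ n = 1 := hP
  have hnt : Nontrivial G := by
    rw [← ENat.one_lt_card_iff_nontrivial]
    exact lt_trans (by norm_num) hcard
  have hs : IsSimpleGroup G :=
    { eq_bot_or_eq_top_of_normal := fun N hN' => by
        by_contra hcon
        push Not at hcon
        exact hcon.2 (hN N hN' hcon.1) }
  refine ⟨G, hG, ?_, hs, hP', fun x y => (hbf x y).to_subtype⟩
  by_contra hfin
  rw [not_infinite_iff_finite] at hfin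
  have h2 := card_two_of_finite G hP' hs
  rw [ENat.card_eq_coe_natCard, h2] at hcard
  norm_num at hcard

end Pool.Agent.Results.MP_73176e_al.SimpleBinaryFinite
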